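import Pool.Agent.V1178.AX.Scale
import Pool.Agent.TH305.AX.BVgen

/-!
The circulation of axisymmetric flows and the test of Feller: barriers.
-/

set_option autoImplicit false

open MeasureTheory Set Filter Topology
open scoped ContDiff Interval

namespace Pool.Agent.V1178.AX

open H459R3.NS W221.NS Pool.Agent.TH305.DR Pool.Agent.TH305.AX

variable {m : ℝ → ℝ}

/-- The barrier. -/
noncomputable def bar (ν : ℝ) (m : ℝ → ℝ) (S κ τ t σ : ℝ) : ℝ :=
  min 1 (vv ν m S κ (t + τ) (min σ S))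

lemma min_mem {σ S : ℝ} (hσ : 0 ≤ σ) (hS : 0 < S) : 0 ≤ min σ S := le_min hσ hS.le

lemma vv_nonneg (h : Adm m) {ν S κ c σ : ℝ} (hν : 0 < ν) (hκ : 0 ≤ κ) (hc : 0 < c) (hS : 0 < S)
    (hσ : 0 ≤ σ) (hσS : σ ≤ S) : 0 ≤ vv ν m S κ c σ := by
  have h1 := psi_nonneg h hσ
  have h2 := ww_nonneg h hS hσ hσS
  have h3 := psi_pos h hS
  unfold vv
  positivity

lemma vv_S (h : Adm m) {ν S κ c : ℝ} (hν : 0 < ν) (hκ : 0 ≤ κ) (hc : 0 < c) (hS : 0 < S) :
    1 ≤ vv ν m S κ c S := by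
  have h2 := ww_nonneg h hS hS.le le_rfl
  have h3 := psi_pos h hS
  unfold vv
  rw [div_self h3.ne']
  have : 0 ≤ κ * (ww m S S / (4 * ν) / c) := by positivity
  linarith

lemma bar_nonneg (h : Adm m) {ν S κ τ t σ : ℝ} (hν : 0 < ν) (hκ : 0 ≤ κ) (hc : 0 < t + τ)
    (hS : 0 < S) (hσ : 0 ≤ σ) : 0 ≤ bar ν m S κ τ t σ :=
  le_min zero_le_one (vv_nonneg h hν hκ hc hS (min_mem hσ hS) (min_le_right _ _))

lemma bar_cont (h : Adm m) {ν S κ τ T : ℝ} (hτ : 0 < τ) (hS : 0 < S) :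
    ContinuousOn (fun z : ℝ × ℝ => bar ν m S κ τ z.1 z.2) (Ico 0 T ×ˢ Ici 0) := by
  have h0 : ContinuousOn (fun z : ℝ × ℝ => min z.2 S) (Ico 0 T ×ˢ Ici 0) := by fun_prop
  have hm : MapsTo (fun z : ℝ × ℝ => min z.2 S) (Ico 0 T ×ˢ Ici 0) (Ici 0) :=
    fun z hz => min_mem hz.2 hS
  have h1 : ContinuousOn (fun z : ℝ × ℝ => psi m (min z.2 S)) (Ico 0 T ×ˢ Ici 0) :=
    (psi_cont h).comp h0 hm
  have h2 : ContinuousOn (fun z : ℝ × ℝ => ww m S (min z.2 S)) (Ico 0 T ×ˢ Ici 0) :=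
    (ww_cont h hS).comp h0 hm
  have h3 : ContinuousOn (fun z : ℝ × ℝ => z.1 + τ) (Ico 0 T ×ˢ Ici 0) := by fun_prop
  unfold bar vv
  refine continuousOn_const.inf ((h1.div_const _).add (continuousOn_const.mul
    ((h2.div_const _).div h3 fun z hz => ?_)))
  have := hz.1.1
  exact (by linarith : 0 < z.1 + τ).ne'

/-- The majorants. -/
lemma bar_maj (h : Adm m) {ν S κ τ t σ q : ℝ} (hν : 0 < ν) (hκ : κ = 0 ∨ κ = 1) (hτ : 0 < τ)
    (ht : 0 < t) (hS : 0 < S) (hσ : 0 < σ) (hq : σ < S → -(2 * ν * (1 - m σ)) ≤ q) :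
    ∃ χ χ₁ c₂ d ζ, Maj (bar ν m S κ τ) t σ χ χ₁ c₂ d ζ ∧
      4 * ν * σ * c₂ - 2 * q * χ₁ σ ≤ d := by
  have hc : 0 < t + τ := by linarith
  have hκ0 : 0 ≤ κ := by rcases hκ with h | h <;> rw [h] <;> norm_num
  by_cases hcase : σ < S ∧ vv ν m S κ (t + τ) σ < 1
  · obtain ⟨hσS, hv⟩ := hcase
    refine ⟨vv ν m S κ (t + τ), vv₁ ν m S κ (t + τ), vv₂ ν m S κ (t + τ) σ,
      -(κ * (ww m S σ / (4 * ν) / (t + τ) ^ 2)), fun r => vv ν m S κ (r + τ) σ, ?_, ?_⟩
    · refine ⟨vv_cd h hS hσ, ?_, vv_hd2 h hS hσ, ?_, ?_, ?_, ?_, ?_⟩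
      · filter_upwards [Ioi_mem_nhds hσ] with r hr
        exact vv_hd h hS hr
      · filter_upwards [Iio_mem_nhds hσS] with r hr
        unfold bar
        rw [min_eq_left (show r ≤ S from le_of_lt hr)]
        exact min_le_right _ _
      · unfold bar
        rw [min_eq_left hσS.le, min_eq_right hv.le]
      · refine Eventually.of_forall fun r => ?_
        unfold bar
        rw [min_eq_left hσS.le]
        exact min_le_right _ _
      · unfold bar
        rw [min_eq_left hσS.le, min_eq_right hv.le]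
      · unfold vv
        have h1 : HasDerivAt (fun r : ℝ => r + τ) 1 t := (hasDerivAt_id t).add_const τ
        have h2 := ((h1.fun_inv hc.ne').const_mul (ww m S σ / (4 * ν))).const_mul κ
        have h3 := h2.const_add (psi m σ / psi m S)
        refine (h3.congr_deriv (by field_simp)).congr_of_eventuallyEq ?_
        refine Eventually.of_forall fun r => ?_
        show psi m σ / psi m S + κ * (ww m S σ / (4 * ν) / (r + τ)) = _
        rw [div_eq_mul_inv _ (r + τ)]
    · have e := vv_eq (κ := κ) (c := t + τ) (S := S) h hν hσ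
      have h1 := vv₁_nonneg h (κ := κ) (c := t + τ) hν hκ0 hc hS hσ hσS.le
      have h2 := mul_le_mul_of_nonneg_right (hq hσS) h1
      have h3 : -κ / (t + τ) ≤ -(κ * (ww m S σ / (4 * ν) / (t + τ) ^ 2)) := by
        rcases hκ with h0 | h0
        · rw [h0]; simp
        · rw [h0] at hv ⊢
          unfold vv at hv
          have h4 : 0 ≤ psi m σ / psi m S := div_nonneg (psi_nonneg h hσ.le) (psi_pos h hS).le
          have h5 : ww m S σ / (4 * ν) / (t + τ) < 1 := by linarith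
          have e2 : ww m S σ / (4 * ν) / (t + τ) ^ 2
              = (ww m S σ / (4 * ν) / (t + τ)) * (1 / (t + τ)) := by
            field_simp
          have h6 : 0 < 1 / (t + τ) := by positivity
          rw [e2, one_mul, neg_div, neg_le_neg_iff]
          calc ww m S σ / (4 * ν) / (t + τ) * (1 / (t + τ)) ≤ 1 * (1 / (t + τ)) :=
                mul_le_mul_of_nonneg_right h5.le h6.le
            _ = _ := one_mul _
      nlinarith
  · have h1 : 1 ≤ vv ν m S κ (t + τ) (min σ S) := by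
      rcases le_or_gt S σ with h1 | h1
      · rw [min_eq_right h1]
        exact vv_S h hν hκ0 hc hS
      · rw [min_eq_left h1.le]
        by_contra hcon
        push Not at hcon
        exact hcase ⟨h1, hcon⟩
    have hb : bar ν m S κ τ t σ = 1 := min_eq_left h1
    refine ⟨fun _ => 1, fun _ => 0, 0, 0, fun _ => 1, ?_, by simp⟩
    exact ⟨contDiffAt_const, Eventually.of_forall fun r => hasDerivAt_const r 1,
      hasDerivAt_const σ 0, Eventually.of_forall fun r => min_le_left _ _, hb.symm,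
      Eventually.of_forall fun r => min_le_left _ _, hb.symm, hasDerivAt_const t 1⟩

variable {ν T : ℝ} {u : ℝ → V → V} {p : ℝ → V → ℝ}

/-- The comparison with the barrier. -/
lemma bar_cmp (hν : 0 < ν) (h : BSol ν T u p) (hm : Adm m) {S κ τ A δ : ℝ}
    (hκ : κ = 0 ∨ κ = 1) (hτ : 0 < τ) (hS : 0 < S) (hA : 0 ≤ A) (hδ : 0 < δ)
    (hin : ∀ x, |circ (u 0) x| ≤ δ + A * bar ν m S κ τ 0 (sg x))
    (hcond : ∀ t ∈ Ioo 0 T, ∀ x, 0 < sg x → sg x < S → δ < |circ (u t) x| →
      -(2 * ν * (1 - m (sg x))) ≤ x 0 * u t x 0 + x 1 * u t x 1) :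
    ∀ t ∈ Ico 0 T, ∀ x, |circ (u t) x| ≤ δ + A * bar ν m S κ τ t (sg x) := by
  have hκ0 : 0 ≤ κ := by rcases hκ with h | h <;> rw [h] <;> norm_num
  refine cmpB hν h hA hδ (fun t ht σ hσ => bar_nonneg hm hν hκ0 (by linarith [ht.1]) hS hσ)
    (bar_cont hm hτ hS) hin fun t ht x hx hd => ?_
  exact bar_maj hm hν hκ hτ ht.1 hS hx fun hxS => hcond t ht x hx hxS hd

/-- **The Feller test**: smoothing of the circulation at the axis. -/
theorem tube (hν : 0 < ν) (h : BSol ν T u p) (hm : Adm m) {S M δ : ℝ} (hS : 0 < S) (hM : 0 ≤ M)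
    (hδ : 0 ≤ δ) (hin : ∀ x, |circ (u 0) x| ≤ M)
    (hcond : ∀ t ∈ Ioo 0 T, ∀ x, 0 < sg x → sg x < S → δ < |circ (u t) x| →
      -(2 * ν * (1 - m (sg x))) ≤ x 0 * u t x 0 + x 1 * u t x 1)
    {t : ℝ} (ht : t ∈ Ioo 0 T) (x : V) :
    |circ (u t) x| ≤ δ + M * min 1 (psi m (min (sg x) S) / psi m S
      + ww m S (min (sg x) S) / (4 * ν) / t) := by
  apply le_of_forall_pos_le_add
  intro ε hε
  obtain ⟨U, hU0, hU⟩ := h.u_bdd (T' := t) ht.2
  -- a small tube
  obtain ⟨σ₀, hσ₀, hσS, hσU⟩ : ∃ σ₀ : ℝ, 0 < σ₀ ∧ σ₀ ≤ S ∧ 2 * √σ₀ * U ≤ δ + ε := by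
    refine ⟨min S ((ε / (2 * (U + 1))) ^ 2), lt_min hS (by positivity), min_le_left _ _, ?_⟩
    have h1 : √(min S ((ε / (2 * (U + 1))) ^ 2)) ≤ ε / (2 * (U + 1)) := by
      refine (Real.sqrt_le_sqrt (min_le_right S ((ε / (2 * (U + 1))) ^ 2))).trans ?_
      rw [Real.sqrt_sq (show 0 ≤ ε / (2 * (U + 1)) by positivity)]
    calc 2 * √(min S ((ε / (2 * (U + 1))) ^ 2)) * U
        ≤ 2 * (ε / (2 * (U + 1))) * (U + 1) := by
          gcongr
          linarith
      _ = ε := by field_simp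
      _ ≤ δ + ε := by linarith
  have hW : 0 < ww m S σ₀ := ww_pos hm hσ₀ hσS
  obtain ⟨τ, hτe⟩ : ∃ τ : ℝ, τ = ww m S σ₀ / (4 * ν) := ⟨_, rfl⟩
  have hτ : 0 < τ := by rw [hτe]; positivity
  have h1 := bar_cmp hν h hm (κ := 1) (τ := τ) (A := M) (δ := δ + ε) (Or.inr rfl) hτ hS hM
    (by linarith) ?_ (fun t ht x hx hxS hd => hcond t ht x hx hxS (by linarith)) t
    ⟨ht.1.le, ht.2⟩ x
  · have h2 : bar ν m S 1 τ t (sg x) ≤ min 1 (psi m (min (sg x) S) / psi m S
        + ww m S (min (sg x) S) / (4 * ν) / t) := by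
      unfold bar vv
      apply min_le_min le_rfl
      rw [one_mul]
      have h3 := ww_nonneg hm hS (min_mem (sg_nonneg x) hS) (min_le_right _ _)
      have ht0 := ht.1
      gcongr
      linarith
    have h3 := mul_le_mul_of_nonneg_left h2 hM
    linarith
  · intro y
    rcases le_or_gt σ₀ (sg y) with hy | hy
    · have h2 : 1 ≤ vv ν m S 1 (0 + τ) (min (sg y) S) := by
        have h3 : ww m S σ₀ ≤ ww m S (min (sg y) S) :=
          ww_mono hm hS hσ₀.le (le_min hy hσS) (min_le_right _ _)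
        have h4 : 0 ≤ psi m (min (sg y) S) / psi m S :=
          div_nonneg (psi_nonneg hm (min_mem (sg_nonneg y) hS)) (psi_pos hm hS).le
        have h5 : 1 ≤ ww m S (min (sg y) S) / (4 * ν) / (0 + τ) := by
          rw [zero_add, le_div_iff₀ hτ, one_mul, hτe]
          gcongr
        unfold vv
        linarith
      have h6 : bar ν m S 1 τ 0 (sg y) = 1 := min_eq_left h2
      rw [h6, mul_one]
      linarith [hin y]
    · have h2 := circ_le (u 0) y
      have h3 := hU 0 ⟨le_rfl, ht.1.le⟩ y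
      have h4 : √(sg y) ≤ √σ₀ := Real.sqrt_le_sqrt hy.le
      have h5 : 2 * √(sg y) * ‖u 0 y‖ ≤ 2 * √σ₀ * U := by gcongr
      have h6 := mul_nonneg hM (bar_nonneg hm hν zero_le_one (show 0 < 0 + τ by linarith) hS
        (sg_nonneg y))
      linarith

/-- **Propagation** of the modulus of continuity given by the scale function. -/
theorem modulus (hν : 0 < ν) (h : BSol ν T u p) (hm : Adm m) {S A δ : ℝ} (hS : 0 < S)
    (hA : 0 ≤ A) (hδ : 0 ≤ δ) (hin : ∀ x, |circ (u 0) x| ≤ δ + A * psi m (min (sg x) S))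
    (hcond : ∀ t ∈ Ioo 0 T, ∀ x, 0 < sg x → sg x < S → δ < |circ (u t) x| →
      -(2 * ν * (1 - m (sg x))) ≤ x 0 * u t x 0 + x 1 * u t x 1)
    {t : ℝ} (ht : t ∈ Ico 0 T) (x : V) :
    |circ (u t) x| ≤ δ + A * psi m (min (sg x) S) := by
  have hP := psi_pos hm hS
  have e : ∀ t' : ℝ, ∀ y : V, A * psi m S * bar ν m S 0 1 t' (sg y)
      = A * psi m (min (sg y) S) := by
    intro t' y
    unfold bar vv
    rw [zero_mul, add_zero, min_eq_right]
    · field_simp
    · rw [div_le_one hP]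
      exact psi_mono hm (min_mem (sg_nonneg y) hS) (min_le_right _ _)
  apply le_of_forall_pos_le_add
  intro ε hε
  have h1 := bar_cmp hν h hm (κ := 0) (τ := 1) (A := A * psi m S) (δ := δ + ε) (Or.inl rfl)
    one_pos hS (by positivity) (by linarith) (fun y => by rw [e]; linarith [hin y])
    (fun t ht x hx hxS hd => hcond t ht x hx hxS (by linarith)) t ht x
  rw [e] at h1
  linarith

/-- **Ancient solutions** and the test of Feller at infinity. -/
theorem ancientF (hν : 0 < ν)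
    (h : ∀ t₀ < 0, BSol ν (-t₀) (fun t => u (t₀ + t)) (fun t => p (t₀ + t))) {M : ℝ}
    (hM : ∀ t < 0, ∀ x, |circ (u t) x| ≤ M)
    (hcond : ∀ δ > 0, ∃ m : ℝ → ℝ, Adm m ∧ Tendsto (psi m) atTop atTop ∧
      ∀ t < 0, ∀ x, 0 < sg x → δ < |circ (u t) x| →
        -(2 * ν * (1 - m (sg x))) ≤ x 0 * u t x 0 + x 1 * u t x 1) :
    ∀ t < 0, ∀ x, circ (u t) x = 0 := by
  intro t ht x
  have hM0 : 0 ≤ M := (abs_nonneg _).trans (hM t ht x)
  rw [← abs_nonpos_iff]
  apply le_of_forall_pos_le_add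
  intro δ hδ
  rw [zero_add]
  obtain ⟨m, hm, hlim, hc⟩ := hcond δ hδ
  have key : ∀ S : ℝ, sg x < S → |circ (u t) x| ≤ δ + M * (psi m (sg x) / psi m S) := by
    intro S hS
    have hS0 : 0 < S := (sg_nonneg x).trans_lt hS
    have h1 : ∀ L : ℝ, 0 < L → |circ (u t) x| ≤ δ + M * (psi m (sg x) / psi m S
        + ww m S (sg x) / (4 * ν) / L) := by
      intro L hL
      have hB := h (t - L) (by linarith)
      have h2 := tube hν hB hm hS0 hM0 hδ.le
        (fun y => by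
          show |circ (u (t - L + 0)) y| ≤ M
          exact hM _ (by linarith) y)
        (fun s hs y hy _ hyd => hc (t - L + s) (by linarith [hs.2]) y hy hyd)
        (t := L) ⟨hL, by linarith⟩ x
      have e : t - L + L = t := by ring
      simp only [e] at h2
      rw [min_eq_left hS.le] at h2
      refine h2.trans ?_
      have := mul_le_mul_of_nonneg_left (min_le_right 1 (psi m (sg x) / psi m S
        + ww m S (sg x) / (4 * ν) / L)) hM0
      linarith
    have h2 : Tendsto (fun L : ℝ => δ + M * (psi m (sg x) / psi m S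
        + ww m S (sg x) / (4 * ν) / L)) atTop (𝓝 (δ + M * (psi m (sg x) / psi m S + 0))) := by
      have h3 : Tendsto (fun L : ℝ => ww m S (sg x) / (4 * ν) / L) atTop (𝓝 0) :=
        tendsto_const_nhds.div_atTop tendsto_id
      exact ((h3.const_add _).const_mul M).const_add δ
    rw [add_zero] at h2
    refine ge_of_tendsto h2 ?_
    filter_upwards [eventually_gt_atTop 0] with L hL
    exact h1 L hL
  have h2 : Tendsto (fun S : ℝ => δ + M * (psi m (sg x) / psi m S)) atTop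
      (𝓝 (δ + M * 0)) :=
    ((tendsto_const_nhds.div_atTop hlim).const_mul M).const_add δ
  rw [mul_zero, add_zero] at h2
  refine ge_of_tendsto h2 ?_
  filter_upwards [eventually_gt_atTop (sg x)] with S hS
  exact key S hS

end Pool.Agent.V1178.AX
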