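import Pool.Agent.V1178.AX.Feller

/-!
The logarithmic borderline case.
-/

set_option autoImplicit false

open MeasureTheory Set Filter Topology
open scoped ContDiff Interval

namespace Pool.Agent.V1178.AX

open H459R3.NS W221.NS Pool.Agent.TH305.DR Pool.Agent.TH305.AX

/-- `β / log (1 / σ)`, at most `1 / 2`. -/
noncomputable def mlog (β σ : ℝ) : ℝ := β / max (-Real.log σ) (2 * β)

variable {β : ℝ}

lemma mlog_cont (hβ : 1 < β) : ContinuousOn (mlog β) (Ioi 0) := by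
  have h1 : ContinuousOn (fun σ : ℝ => -Real.log σ) (Ioi 0) :=
    (Real.continuousOn_log.mono fun r (hr : 0 < r) => hr.ne').neg
  refine continuousOn_const.div (h1.sup continuousOn_const) fun r _ => ?_
  have : 2 * β ≤ max (-Real.log r) (2 * β) := le_max_right _ _
  exact (by linarith : 0 < max (-Real.log r) (2 * β)).ne'

lemma mlog_le (hβ : 1 < β) (σ : ℝ) : mlog β σ ≤ 1 / 2 := by
  have h1 : 2 * β ≤ max (-Real.log σ) (2 * β) := le_max_right _ _
  unfold mlog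
  rw [div_le_iff₀ (by linarith)]
  linarith

lemma L_ge {σ : ℝ} (hσ : 0 < σ) (hσ1 : σ ≤ Real.exp (-(2 * β))) : 2 * β ≤ -Real.log σ := by
  have := (Real.log_le_iff_le_exp hσ).2 hσ1
  linarith

lemma mlog_eq {σ : ℝ} (hσ : 0 < σ) (hσ1 : σ ≤ Real.exp (-(2 * β))) :
    mlog β σ = β / (-Real.log σ) := by
  unfold mlog
  rw [max_eq_left (L_ge hσ hσ1)]

/-- the constant -/
noncomputable def kk (β : ℝ) : ℝ :=
  Real.exp (∫ r in (Real.exp (-(2 * β)))..1, mlog β r / r) * (2 * β) ^ (-β)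

lemma kk_pos (hβ : 1 < β) : 0 < kk β := by
  have : 0 < 2 * β := by linarith
  unfold kk
  positivity

lemma ee_log (hβ : 1 < β) {σ : ℝ} (hσ : 0 < σ) (hσ1 : σ ≤ Real.exp (-(2 * β))) :
    ee (mlog β) σ = kk β * (-Real.log σ) ^ β := by
  have hβ0 : 0 < 2 * β := by linarith
  obtain ⟨s, hs⟩ : ∃ s, s = Real.exp (-(2 * β)) := ⟨_, rfl⟩
  have hs0 : 0 < s := by rw [hs]; exact Real.exp_pos _
  have hL : -Real.log s = 2 * β := by rw [hs, Real.log_exp]; ring
  have h1 : (∫ r in σ..s, mlog β r / r) = -(β * Real.log (-Real.log s))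
      - -(β * Real.log (-Real.log σ)) := by
    have hsub : ∀ r ∈ uIcc σ s, 0 < r ∧ r ≤ s := by
      intro r hr
      rw [uIcc_of_le (hs ▸ hσ1)] at hr
      exact ⟨hσ.trans_le hr.1, hr.2⟩
    refine intervalIntegral.integral_eq_sub_of_hasDerivAt
      (f := fun r => -(β * Real.log (-Real.log r))) (fun r hr => ?_)
      (int_div (mlog_cont hβ) hσ hs0)
    obtain ⟨hr0, hrs⟩ := hsub r hr
    have hLr := L_ge hr0 (hs ▸ hrs)
    have hLp : 0 < -Real.log r := by linarith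
    have h2 := (((Real.hasDerivAt_log hr0.ne').neg.log hLp.ne').const_mul β).neg
    refine h2.congr_deriv ?_
    rw [mlog_eq hr0 (hs ▸ hrs)]
    have hne : Real.log r ≠ 0 := fun h0 => by rw [h0] at hLp; simp at hLp
    show -(β * (-r⁻¹ / (-Real.log r))) = β / (-Real.log r) / r
    field_simp
  have h2 := intervalIntegral.integral_add_adjacent_intervals
    (int_div (mlog_cont hβ) hσ hs0) (int_div (mlog_cont hβ) hs0 one_pos)
  have hLσ := L_ge hσ hσ1
  have hLp : 0 < -Real.log σ := by linarith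
  unfold ee kk
  rw [← h2, h1, ← hs, hL, Real.exp_add, Real.rpow_def_of_pos hβ0, Real.rpow_def_of_pos hLp,
    ← Real.exp_add, ← Real.exp_add, ← Real.exp_add]
  congr 1
  ring

/-- the primitive of `ss` -/
noncomputable def ff (β σ : ℝ) : ℝ := (-Real.log σ) ^ (1 - β) / (kk β * (β - 1))

lemma ff_zero (hβ : 1 < β) : ff β 0 = 0 := by
  unfold ff
  rw [Real.log_zero, neg_zero, Real.zero_rpow (by linarith), zero_div]

lemma ff_hd (hβ : 1 < β) {σ : ℝ} (hσ : 0 < σ) (hσ1 : σ ≤ Real.exp (-(2 * β))) :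
    HasDerivAt (ff β) (ss (mlog β) σ) σ := by
  have hk := kk_pos hβ
  have hLσ := L_ge hσ hσ1
  have hLp : 0 < -Real.log σ := by linarith
  have hb : 0 < β - 1 := by linarith
  have h1 := ((Real.hasDerivAt_log hσ.ne').neg.rpow_const (p := 1 - β)
    (Or.inl hLp.ne')).div_const (kk β * (β - 1))
  refine h1.congr_deriv ?_
  unfold ss
  rw [ee_log hβ hσ hσ1]
  obtain ⟨L, hL⟩ : ∃ L, L = -Real.log σ := ⟨_, rfl⟩
  have hL0 : 0 < L := by rw [hL]; exact hLp
  show -σ⁻¹ * (1 - β) * (-Real.log σ) ^ (1 - β - 1) / (kk β * (β - 1)) = _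
  rw [← hL, show 1 - β - 1 = -β by ring, Real.rpow_neg hL0.le]
  have : 0 < L ^ β := by positivity
  field_simp
  ring

lemma ff_cont (hβ : 1 < β) : ContinuousOn (ff β) (Icc 0 (Real.exp (-(2 * β)))) := by
  intro σ hσ
  rcases eq_or_lt_of_le hσ.1 with h0 | h0
  · rw [← h0]
    have h1 : Tendsto (fun r : ℝ => -Real.log r) (𝓝[>] 0) atTop :=
      tendsto_neg_atBot_atTop.comp Real.tendsto_log_nhdsGT_zero
    have h2 : Tendsto (fun r : ℝ => (-Real.log r) ^ (1 - β)) (𝓝[>] 0) (𝓝 0) := by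
      have := (tendsto_rpow_neg_atTop (show 0 < β - 1 by linarith)).comp h1
      refine this.congr fun r => ?_
      show (-Real.log r) ^ (-(β - 1)) = _
      rw [show -(β - 1) = 1 - β by ring]
    have h3 : Tendsto (ff β) (𝓝[>] 0) (𝓝 (ff β 0)) := by
      rw [ff_zero hβ]
      have := h2.div_const (kk β * (β - 1))
      rwa [zero_div] at this
    have h4 : ContinuousWithinAt (ff β) (Ici 0) 0 := by
      rw [← Ioi_insert, continuousWithinAt_insert_self]
      exact h3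
    exact h4.mono fun r hr => hr.1
  · exact (ff_hd hβ h0 hσ.2).continuousAt.continuousWithinAt

lemma mlog_int (hβ : 1 < β) :
    IntervalIntegrable (ss (mlog β)) volume 0 (Real.exp (-(2 * β))) := by
  rw [intervalIntegrable_iff_integrableOn_Ioc_of_le (Real.exp_pos _).le]
  exact intervalIntegral.integrableOn_deriv_of_nonneg (ff_cont hβ)
    (fun r hr => ff_hd hβ hr.1 hr.2.le) (fun r hr => (ss_pos hr.1).le)

lemma mlog_adm0 (hβ : 1 < β) : Adm0 (mlog β) where
  cont := mlog_cont hβ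
  le := fun σ _ => mlog_le hβ σ
  int := (mlog_int hβ).trans
    (((ss_cont (mlog_cont hβ)).mono (uIcc_pos (Real.exp_pos _) one_pos)).intervalIntegrable)

lemma psi_log (hβ : 1 < β) {σ : ℝ} (hσ : 0 < σ) (hσ1 : σ ≤ Real.exp (-(2 * β))) :
    psi (mlog β) σ = ff β σ := by
  unfold psi
  have h1 : IntervalIntegrable (ss (mlog β)) volume 0 σ :=
    ss_int (mlog_adm0 hβ).adm le_rfl hσ.le
  rw [intervalIntegral.integral_eq_sub_of_hasDerivAt_of_le hσ.le
    ((ff_cont hβ).mono (Icc_subset_Icc_right hσ1))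
    (fun r hr => ff_hd hβ hr.1 (hr.2.le.trans hσ1)) h1, ff_zero hβ, sub_zero]

variable {ν T : ℝ} {u : ℝ → V → V} {p : ℝ → V → ℝ}

lemma log_sqrt' {σ : ℝ} (hσ : 0 < σ) : -Real.log σ = 2 * -Real.log (√σ) := by
  rw [Real.log_sqrt hσ.le]
  ring

/-- **The logarithmic condition.** -/
theorem logb (hν : 0 < ν) (h : BSol ν T u p) (hβ : 1 < β) {r₀ M : ℝ} (hr₀ : 0 < r₀)
    (hin : ∀ x, |circ (u 0) x| ≤ M)
    (hcond : ∀ t ∈ Ioo 0 T, ∀ x, 0 < sg x → √(sg x) < r₀ → circ (u t) x ≠ 0 →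
      -(2 * ν) + β * ν / (-Real.log (√(sg x))) ≤ x 0 * u t x 0 + x 1 * u t x 1) :
    ∃ C r₁ : ℝ, 0 < r₁ ∧ r₁ < 1 ∧ ∀ t ∈ Ico 0 T, ∀ x, 0 < sg x → √(sg x) < r₁ →
      |circ (u t) x| ≤ C * (-Real.log (√(sg x))) ^ (1 - β) := by
  rcases le_or_gt T 0 with hT | hT
  · exact ⟨0, 1 / 2, by norm_num, by norm_num, fun t ht => by
      exact absurd (ht.1.trans_lt ht.2) (not_lt.2 hT)⟩
  obtain ⟨U, hU0, hU⟩ := h.u_bdd (T' := 0) hT
  have hM0 : 0 ≤ M := (abs_nonneg _).trans (hin 0)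
  have hm := (mlog_adm0 hβ).adm
  obtain ⟨S, hS, hS1, hS2⟩ : ∃ S : ℝ, 0 < S ∧ S ≤ Real.exp (-(2 * β)) ∧ S ≤ r₀ ^ 2 :=
    ⟨min (Real.exp (-(2 * β))) (r₀ ^ 2), lt_min (Real.exp_pos _) (by positivity),
      min_le_left _ _, min_le_right _ _⟩
  have hSe : S < 1 := hS1.trans_lt (Real.exp_lt_one_iff.2 (by linarith))
  have hP := psi_pos hm hS
  obtain ⟨A, hA⟩ : ∃ A : ℝ, A = U + M / psi (mlog β) S := ⟨_, rfl⟩
  have hA0 : 0 ≤ A := by rw [hA]; positivity
  have hk := kk_pos hβ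
  have hb : 0 < β - 1 := by linarith
  refine ⟨A * ((2 : ℝ) ^ (1 - β) / (kk β * (β - 1))), √S, Real.sqrt_pos.2 hS, ?_, ?_⟩
  · rw [← Real.sqrt_one]
    exact Real.sqrt_lt_sqrt hS.le hSe
  intro t ht x hx hxS
  have hxS' : sg x < S := by
    rwa [Real.sqrt_lt_sqrt_iff hx.le] at hxS
  have key := modulus hν h hm (S := S) (A := A) (δ := 0) hS hA0 le_rfl
    (fun y => by
      rw [zero_add]
      rcases le_or_gt S (sg y) with hy | hy
      · rw [min_eq_right hy]
        refine (hin y).trans ?_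
        rw [hA, add_mul, div_mul_cancel₀ _ hP.ne']
        have : 0 ≤ U * psi (mlog β) S := by positivity
        linarith
      · rw [min_eq_left hy.le]
        have h1 := circ_le (u 0) y
        have h2 := hU 0 ⟨le_rfl, le_rfl⟩ y
        have h3 := psi_ge (mlog_adm0 hβ) (σ := sg y) ⟨sg_nonneg y, by linarith⟩
        have h4 : 2 * √(sg y) * ‖u 0 y‖ ≤ psi (mlog β) (sg y) * U :=
          mul_le_mul h3 h2 (norm_nonneg _) (psi_nonneg hm (sg_nonneg y))
        have h5 : 0 ≤ M / psi (mlog β) S * psi (mlog β) (sg y) :=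
          mul_nonneg (by positivity) (psi_nonneg hm (sg_nonneg y))
        rw [hA, add_mul]
        linarith)
    (fun s hs y hy hyS hyd => by
      have h1 := hcond s hs y hy (by
        rw [← Real.sqrt_sq hr₀.le]
        exact Real.sqrt_lt_sqrt hy.le (by linarith)) (by
        intro h0
        rw [h0, abs_zero] at hyd
        exact lt_irrefl _ hyd)
      refine le_trans (le_of_eq ?_) h1
      rw [mlog_eq hy (hyS.le.trans hS1), log_sqrt' hy]
      have : 0 < -Real.log (√(sg y)) := by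
        have := L_ge hy (hyS.le.trans hS1)
        rw [log_sqrt' hy] at this
        linarith
      field_simp
      ring) ht x
  rw [min_eq_left hxS'.le, zero_add, psi_log hβ hx (hxS'.le.trans hS1)] at key
  refine key.trans (le_of_eq ?_)
  unfold ff
  have hL : 0 < -Real.log (√(sg x)) := by
    have := L_ge hx (hxS'.le.trans hS1)
    rw [log_sqrt' hx] at this
    linarith
  rw [log_sqrt' hx, Real.mul_rpow (by norm_num) hL.le]
  ring

/-- In particular any smaller power. -/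
theorem logb' (hν : 0 < ν) (h : BSol ν T u p) (hβ : 1 < β) {r₀ M α : ℝ} (hr₀ : 0 < r₀)
    (hα : α < β - 1) (hin : ∀ x, |circ (u 0) x| ≤ M)
    (hcond : ∀ t ∈ Ioo 0 T, ∀ x, 0 < sg x → √(sg x) < r₀ → circ (u t) x ≠ 0 →
      -(2 * ν) + β * ν / (-Real.log (√(sg x))) ≤ x 0 * u t x 0 + x 1 * u t x 1) :
    ∃ r₁ : ℝ, 0 < r₁ ∧ r₁ < 1 ∧ ∀ t ∈ Ico 0 T, ∀ x, 0 < sg x → √(sg x) < r₁ →
      |circ (u t) x| ≤ (-Real.log (√(sg x))) ^ (-α) := by
  obtain ⟨C, r₁, h1, h2, h3⟩ := logb hν h hβ hr₀ hin hcond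
  have hlim : Tendsto (fun L : ℝ => L ^ (β - 1 - α)) atTop atTop :=
    tendsto_rpow_atTop (by linarith)
  obtain ⟨L₀, hL₀⟩ := eventually_atTop.1 ((hlim.eventually_ge_atTop C).and
    (eventually_ge_atTop 1))
  refine ⟨min r₁ (Real.exp (-L₀)), lt_min h1 (Real.exp_pos _), (min_le_left _ _).trans_lt h2,
    fun t ht x hx hxr => ?_⟩
  have hx0 : 0 < √(sg x) := Real.sqrt_pos.2 hx
  have g1 : L₀ ≤ -Real.log (√(sg x)) := by
    have := (Real.log_le_iff_le_exp hx0).2 (hxr.le.trans (min_le_right _ _))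
    linarith
  obtain ⟨g2, g3⟩ := hL₀ _ g1
  have g4 := h3 t ht x hx (hxr.trans_le (min_le_left _ _))
  obtain ⟨L, hL⟩ : ∃ L, L = -Real.log (√(sg x)) := ⟨_, rfl⟩
  rw [← hL] at g2 g3 g4 ⊢
  have hL0 : 0 < L := by linarith
  refine g4.trans ?_
  calc C * L ^ (1 - β) ≤ L ^ (β - 1 - α) * L ^ (1 - β) := by gcongr
    _ = L ^ (-α) := by
      rw [← Real.rpow_add hL0]
      congr 1
      ring

end Pool.Agent.V1178.AX
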