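import Mathlib

/-!
The scale function and the mean exit time of a one-dimensional diffusion with the generator
`4 ν (σ ∂² + (1 - m (σ)) ∂)`.
-/

set_option autoImplicit false

open MeasureTheory Set Filter Topology
open scoped ContDiff Interval

namespace Pool.Agent.V1178.AX

/-- `exp (∫_σ^1 m (r) / r dr)`. -/
noncomputable def ee (m : ℝ → ℝ) (σ : ℝ) : ℝ := Real.exp (∫ r in σ..1, m r / r)

/-- The derivative of the scale function. -/
noncomputable def ss (m : ℝ → ℝ) (σ : ℝ) : ℝ := 1 / (σ * ee m σ)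

/-- The scale function. -/
noncomputable def psi (m : ℝ → ℝ) (σ : ℝ) : ℝ := ∫ r in (0 : ℝ)..σ, ss m r

/-- `∫_σ^S ee m`. -/
noncomputable def gg (m : ℝ → ℝ) (S σ : ℝ) : ℝ := ∫ r in σ..S, ee m r

/-- `4 ν` times the mean exit time. -/
noncomputable def ww (m : ℝ → ℝ) (S σ : ℝ) : ℝ := ∫ r in (0 : ℝ)..σ, ss m r * gg m S r

/-- The assumptions on `m`: it is continuous and `0` is accessible (the test of Feller). -/
structure Adm (m : ℝ → ℝ) : Prop where
  cont : ContinuousOn m (Ioi 0)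
  int : IntervalIntegrable (fun r => ss m r * gg m 1 r) volume 0 1

/-- Simpler assumptions. -/
structure Adm0 (m : ℝ → ℝ) : Prop where
  cont : ContinuousOn m (Ioi 0)
  le : ∀ σ ∈ Ioc (0 : ℝ) 1, m σ ≤ 1 / 2
  int : IntervalIntegrable (ss m) volume 0 1

variable {m : ℝ → ℝ}

lemma cont_div (hm : ContinuousOn m (Ioi 0)) : ContinuousOn (fun r => m r / r) (Ioi 0) :=
  hm.div continuousOn_id fun r (hr : 0 < r) => hr.ne'

lemma uIcc_pos {a b : ℝ} (ha : 0 < a) (hb : 0 < b) : uIcc a b ⊆ Ioi 0 := by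
  intro r hr
  have h1 := (mem_uIcc.1 hr)
  show 0 < r
  rcases h1 with h | h
  · exact ha.trans_le h.1
  · exact hb.trans_le h.1

lemma int_div (hm : ContinuousOn m (Ioi 0)) {a b : ℝ} (ha : 0 < a) (hb : 0 < b) :
    IntervalIntegrable (fun r => m r / r) volume a b :=
  ((cont_div hm).mono (uIcc_pos ha hb)).intervalIntegrable

lemma ii_hd (hm : ContinuousOn m (Ioi 0)) {σ : ℝ} (hσ : 0 < σ) :
    HasDerivAt (fun s => ∫ r in s..1, m r / r) (-(m σ / σ)) σ := by
  have hc : ContinuousAt (fun r => m r / r) σ := (cont_div hm).continuousAt (Ioi_mem_nhds hσ)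
  refine intervalIntegral.integral_hasDerivAt_left (int_div hm hσ one_pos) ?_ hc
  exact (cont_div hm).stronglyMeasurableAtFilter isOpen_Ioi _ hσ

lemma ee_pos (σ : ℝ) : 0 < ee m σ := Real.exp_pos _

lemma ee_hd (hm : ContinuousOn m (Ioi 0)) {σ : ℝ} (hσ : 0 < σ) :
    HasDerivAt (ee m) (-(m σ / σ) * ee m σ) σ := by
  have h := (ii_hd hm hσ).exp
  refine h.congr_deriv ?_
  unfold ee
  ring

lemma ee_cont (hm : ContinuousOn m (Ioi 0)) : ContinuousOn (ee m) (Ioi 0) :=
  fun _ hσ => (ee_hd hm hσ).continuousAt.continuousWithinAt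

lemma ss_pos {σ : ℝ} (hσ : 0 < σ) : 0 < ss m σ := by
  unfold ss
  have := ee_pos (m := m) σ
  positivity

lemma ss_ee {σ : ℝ} (hσ : 0 < σ) : ss m σ * ee m σ = 1 / σ := by
  unfold ss
  have := ee_pos (m := m) σ
  field_simp

lemma ss_hd (hm : ContinuousOn m (Ioi 0)) {σ : ℝ} (hσ : 0 < σ) :
    HasDerivAt (ss m) (-((1 - m σ) / σ) * ss m σ) σ := by
  have he := ee_pos (m := m) σ
  have h1 : HasDerivAt (fun r => r * ee m r) (1 * ee m σ + σ * (-(m σ / σ) * ee m σ)) σ :=
    (hasDerivAt_id σ).mul (ee_hd hm hσ)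
  have h2 := h1.inv (by positivity)
  have e : ss m = fun r => (r * ee m r)⁻¹ := by
    funext r
    unfold ss
    rw [one_div]
  rw [e]
  refine h2.congr_deriv ?_
  field_simp
  ring

lemma ss_cont (hm : ContinuousOn m (Ioi 0)) : ContinuousOn (ss m) (Ioi 0) :=
  fun _ hσ => (ss_hd hm hσ).continuousAt.continuousWithinAt

lemma int_ext {f : ℝ → ℝ} (hf : ContinuousOn f (Ioi 0)) (h1 : IntervalIntegrable f volume 0 1)
    {a b : ℝ} (ha : 0 ≤ a) (hb : 0 ≤ b) : IntervalIntegrable f volume a b := by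
  have key : ∀ c : ℝ, 0 ≤ c → IntervalIntegrable f volume 0 c := by
    intro c hc
    rcases eq_or_lt_of_le hc with h | h
    · rw [← h]
    · exact h1.trans ((hf.mono (uIcc_pos one_pos h)).intervalIntegrable)
  exact (key a ha).symm.trans (key b hb)

lemma ee_int' (hm : ContinuousOn m (Ioi 0)) {a b : ℝ} (ha : 0 < a) (hb : 0 < b) :
    IntervalIntegrable (ee m) volume a b :=
  ((ee_cont hm).mono (uIcc_pos ha hb)).intervalIntegrable

lemma gg_hd (hm : ContinuousOn m (Ioi 0)) {S σ : ℝ} (hS : 0 < S) (hσ : 0 < σ) :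
    HasDerivAt (gg m S) (-ee m σ) σ := by
  have hc : ContinuousAt (ee m) σ := (ee_cont hm).continuousAt (Ioi_mem_nhds hσ)
  exact intervalIntegral.integral_hasDerivAt_left (ee_int' hm hσ hS)
    ((ee_cont hm).stronglyMeasurableAtFilter isOpen_Ioi _ hσ) hc

lemma gg_nonneg {S σ : ℝ} (hσ : σ ≤ S) : 0 ≤ gg m S σ :=
  intervalIntegral.integral_nonneg hσ fun r _ => (ee_pos r).le

lemma gg_pos (hm : ContinuousOn m (Ioi 0)) {S σ : ℝ} (hσ : 0 < σ) (h : σ < S) : 0 < gg m S σ :=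
  intervalIntegral.intervalIntegral_pos_of_pos_on (ee_int' hm hσ (hσ.trans h))
    (fun q _ => ee_pos q) h

lemma gg_add (hm : ContinuousOn m (Ioi 0)) {a b c : ℝ} (ha : 0 < a) (hb : 0 < b) (hc : 0 < c) :
    gg m b a + gg m c b = gg m c a :=
  intervalIntegral.integral_add_adjacent_intervals (ee_int' hm ha hb) (ee_int' hm hb hc)

lemma gg_anti (hm : ContinuousOn m (Ioi 0)) {S a b : ℝ} (ha : 0 < a) (hab : a ≤ b) (hb : b ≤ S) :
    gg m S b ≤ gg m S a := by
  have h1 := gg_add hm ha (ha.trans_le hab) (ha.trans_le (hab.trans hb))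
  have h2 : 0 ≤ gg m b a := gg_nonneg hab
  linarith

lemma sg_cont (hm : ContinuousOn m (Ioi 0)) {S : ℝ} (hS : 0 < S) :
    ContinuousOn (fun r => ss m r * gg m S r) (Ioi 0) := fun r hr =>
  ((ss_hd hm hr).continuousAt.mul (gg_hd hm hS hr).continuousAt).continuousWithinAt

lemma ss_int (h : Adm m) {a b : ℝ} (ha : 0 ≤ a) (hb : 0 ≤ b) :
    IntervalIntegrable (ss m) volume a b := by
  refine int_ext (ss_cont h.cont) ?_ ha hb
  have h1 : IntervalIntegrable (ss m) volume 0 (1 / 2) := by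
    have hg : 0 < gg m 1 (1 / 2) := gg_pos h.cont (by norm_num) (by norm_num)
    have h0 := ((int_ext (sg_cont h.cont one_pos) h.int le_rfl
      (show (0 : ℝ) ≤ 1 / 2 by norm_num)).const_mul (gg m 1 (1 / 2))⁻¹)
    rw [intervalIntegrable_iff_integrableOn_Ioc_of_le (by norm_num)] at h0 ⊢
    refine Integrable.mono' h0 ?_ ?_
    · exact ((ss_cont h.cont).mono fun r hr => hr.1).aestronglyMeasurable measurableSet_Ioc
    · rw [ae_restrict_iff' measurableSet_Ioc]
      refine Eventually.of_forall fun r hr => ?_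
      have h1 := ss_pos (m := m) hr.1
      have h2 := gg_anti h.cont hr.1 hr.2 (show (1 / 2 : ℝ) ≤ 1 by norm_num)
      rw [Real.norm_of_nonneg h1.le, inv_mul_eq_div, le_div_iff₀ hg]
      exact mul_le_mul_of_nonneg_left h2 h1.le
  exact h1.trans (((ss_cont h.cont).mono (uIcc_pos (by norm_num) one_pos)).intervalIntegrable)

lemma psi_zero : psi m 0 = 0 := by
  unfold psi
  rw [intervalIntegral.integral_same]

lemma psi_hd (h : Adm m) {σ : ℝ} (hσ : 0 < σ) : HasDerivAt (psi m) (ss m σ) σ := by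
  have hc : ContinuousAt (ss m) σ := (ss_cont h.cont).continuousAt (Ioi_mem_nhds hσ)
  exact intervalIntegral.integral_hasDerivAt_right (ss_int h le_rfl hσ.le)
    ((ss_cont h.cont).stronglyMeasurableAtFilter isOpen_Ioi _ hσ) hc

lemma prim_cont {f : ℝ → ℝ} (hf : ∀ b : ℝ, 0 ≤ b → IntervalIntegrable f volume 0 b) :
    ContinuousOn (fun σ => ∫ r in (0 : ℝ)..σ, f r) (Ici 0) := by
  intro σ hσ
  have hσ' : (0 : ℝ) ≤ σ := hσ
  have h1 : ContinuousOn (fun σ => ∫ r in (0 : ℝ)..σ, f r) (uIcc 0 (σ + 1)) :=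
    intervalIntegral.continuousOn_primitive_interval' (hf (σ + 1) (by linarith)) left_mem_uIcc
  rw [uIcc_of_le (by linarith)] at h1
  have h2 := h1 σ ⟨hσ', by linarith⟩
  refine h2.mono_of_mem_nhdsWithin ?_
  rw [mem_nhdsWithin]
  exact ⟨Iio (σ + 1), isOpen_Iio, by simp, fun r hr => ⟨hr.2, hr.1.le⟩⟩

lemma psi_cont (h : Adm m) : ContinuousOn (psi m) (Ici 0) :=
  prim_cont fun _ hb => ss_int h le_rfl hb

lemma psi_mono (h : Adm m) {a b : ℝ} (ha : 0 ≤ a) (hab : a ≤ b) : psi m a ≤ psi m b := by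
  have hb : 0 ≤ b := ha.trans hab
  have e : psi m b - psi m a = ∫ r in a..b, ss m r := by
    unfold psi
    exact intervalIntegral.integral_interval_sub_left (ss_int h le_rfl hb) (ss_int h le_rfl ha)
  have h1 : 0 ≤ ∫ r in a..b, ss m r := by
    apply intervalIntegral.integral_nonneg hab
    intro r hr
    rcases eq_or_lt_of_le (ha.trans hr.1) with h0 | h0
    · rw [← h0]; unfold ss; simp
    · exact (ss_pos h0).le
  linarith

lemma psi_nonneg (h : Adm m) {a : ℝ} (ha : 0 ≤ a) : 0 ≤ psi m a := by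
  have := psi_mono h le_rfl ha
  rwa [psi_zero] at this

lemma psi_pos (h : Adm m) {σ : ℝ} (hσ : 0 < σ) : 0 < psi m σ :=
  intervalIntegral.intervalIntegral_pos_of_pos_on (ss_int h le_rfl hσ.le)
    (fun _ hr => ss_pos hr.1) hσ

lemma sg_int' (h : Adm m) {S a b : ℝ} (hS : 0 < S) (ha : 0 ≤ a) (hb : 0 ≤ b) :
    IntervalIntegrable (fun r => ss m r * gg m S r) volume a b := by
  refine int_ext (sg_cont h.cont hS) ?_ ha hb
  have h0 := h.int.add ((ss_int h le_rfl zero_le_one).const_mul (gg m S 1))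
  rw [intervalIntegrable_iff_integrableOn_Ioc_of_le zero_le_one] at h0 ⊢
  refine h0.congr_fun (fun r hr => ?_) measurableSet_Ioc
  have := gg_add h.cont hr.1 one_pos hS
  show ss m r * gg m 1 r + gg m S 1 * ss m r = ss m r * gg m S r
  rw [← this]
  ring

lemma ww_zero {S : ℝ} : ww m S 0 = 0 := by
  unfold ww
  rw [intervalIntegral.integral_same]

lemma ww_hd (h : Adm m) {S σ : ℝ} (hS : 0 < S) (hσ : 0 < σ) :
    HasDerivAt (ww m S) (ss m σ * gg m S σ) σ := by
  have hf : ContinuousOn (fun r => ss m r * gg m S r) (Ioi 0) := fun r hr =>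
    ((ss_hd h.cont hr).continuousAt.mul (gg_hd h.cont hS hr).continuousAt).continuousWithinAt
  have hc : ContinuousAt (fun r => ss m r * gg m S r) σ := hf.continuousAt (Ioi_mem_nhds hσ)
  exact intervalIntegral.integral_hasDerivAt_right (sg_int' h hS le_rfl hσ.le)
    (hf.stronglyMeasurableAtFilter isOpen_Ioi _ hσ) hc

lemma ww_cont (h : Adm m) {S : ℝ} (hS : 0 < S) : ContinuousOn (ww m S) (Ici 0) :=
  prim_cont fun _ hb => sg_int' h hS le_rfl hb

lemma ww_mono (h : Adm m) {S a b : ℝ} (hS : 0 < S) (ha : 0 ≤ a) (hab : a ≤ b) (hb : b ≤ S) :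
    ww m S a ≤ ww m S b := by
  have e : ww m S b - ww m S a = ∫ r in a..b, ss m r * gg m S r := by
    unfold ww
    exact intervalIntegral.integral_interval_sub_left (sg_int' h hS le_rfl (ha.trans hab))
      (sg_int' h hS le_rfl ha)
  have h1 : 0 ≤ ∫ r in a..b, ss m r * gg m S r := by
    apply intervalIntegral.integral_nonneg hab
    intro r hr
    apply mul_nonneg _ (gg_nonneg (hr.2.trans hb))
    rcases eq_or_lt_of_le (ha.trans hr.1) with h0 | h0
    · rw [← h0]; unfold ss; simp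
    · exact (ss_pos h0).le
  linarith

lemma ww_nonneg (h : Adm m) {S a : ℝ} (hS : 0 < S) (ha : 0 ≤ a) (hb : a ≤ S) : 0 ≤ ww m S a := by
  have := ww_mono h hS le_rfl ha hb
  rwa [ww_zero] at this

lemma ww_pos (h : Adm m) {S a : ℝ} (ha : 0 < a) (hb : a ≤ S) : 0 < ww m S a := by
  have hS : 0 < S := ha.trans_le hb
  have h2 : ww m S (a / 2) ≤ ww m S a := ww_mono h hS (by positivity) (by linarith) hb
  refine lt_of_lt_of_le ?_ h2
  unfold ww
  apply intervalIntegral.intervalIntegral_pos_of_pos_on (sg_int' h hS le_rfl (by positivity)) _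
    (by positivity)
  intro r hr
  apply mul_pos (ss_pos hr.1)
  unfold gg
  have hrS : r < S := by linarith [hr.2]
  exact intervalIntegral.intervalIntegral_pos_of_pos_on (ee_int' h.cont hr.1 hS)
    (fun q _ => ee_pos q) hrS

/-- twice differentiable functions -/
lemma c2_of {f f1 f2 : ℝ → ℝ} {U : Set ℝ} (hU : IsOpen U) (h1 : ∀ x ∈ U, HasDerivAt f (f1 x) x)
    (h2 : ∀ x ∈ U, HasDerivAt f1 (f2 x) x) (h3 : ContinuousOn f2 U) {x : ℝ} (hx : x ∈ U) :
    ContDiffAt ℝ 2 f x := by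
  have e1 : ∀ y ∈ U, deriv f y = f1 y := fun y hy => (h1 y hy).deriv
  have e2 : ∀ y ∈ U, deriv f1 y = f2 y := fun y hy => (h2 y hy).deriv
  have c1 : ContDiffOn ℝ 1 f1 U := by
    rw [show (1 : WithTop ℕ∞) = 0 + 1 from by norm_num, contDiffOn_succ_iff_deriv_of_isOpen hU]
    refine ⟨fun y hy => (h2 y hy).differentiableAt.differentiableWithinAt, by simp, ?_⟩
    rw [contDiffOn_zero]
    exact h3.congr e2
  have c2 : ContDiffOn ℝ 2 f U := by
    rw [show (2 : WithTop ℕ∞) = 1 + 1 from by norm_num, contDiffOn_succ_iff_deriv_of_isOpen hU]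
    refine ⟨fun y hy => (h1 y hy).differentiableAt.differentiableWithinAt, by simp, ?_⟩
    exact c1.congr e1
  exact c2.contDiffAt (hU.mem_nhds hx)

/-- The barrier inside the tube. -/
noncomputable def vv (ν : ℝ) (m : ℝ → ℝ) (S κ c : ℝ) (σ : ℝ) : ℝ :=
  psi m σ / psi m S + κ * (ww m S σ / (4 * ν) / c)

noncomputable def vv₁ (ν : ℝ) (m : ℝ → ℝ) (S κ c : ℝ) (σ : ℝ) : ℝ :=
  ss m σ / psi m S + κ * (ss m σ * gg m S σ / (4 * ν) / c)

noncomputable def vv₂ (ν : ℝ) (m : ℝ → ℝ) (S κ c : ℝ) (σ : ℝ) : ℝ :=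
  -((1 - m σ) / σ) * ss m σ / psi m S + κ * ((-((1 - m σ) / σ) * ss m σ * gg m S σ
    + ss m σ * -ee m σ) / (4 * ν) / c)

lemma vv_hd (h : Adm m) {ν S κ c σ : ℝ} (hS : 0 < S) (hσ : 0 < σ) :
    HasDerivAt (vv ν m S κ c) (vv₁ ν m S κ c σ) σ := by
  have h1 := (psi_hd h hσ).div_const (psi m S)
  have h2 := (((ww_hd h hS hσ).div_const (4 * ν)).div_const c).const_mul κ
  exact h1.add h2

lemma vv_hd2 (h : Adm m) {ν S κ c σ : ℝ} (hS : 0 < S) (hσ : 0 < σ) :
    HasDerivAt (vv₁ ν m S κ c) (vv₂ ν m S κ c σ) σ := by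
  have h1 := (ss_hd h.cont hσ).div_const (psi m S)
  have h2 := ((((ss_hd h.cont hσ).mul (gg_hd h.cont hS hσ)).div_const (4 * ν)).div_const c).const_mul κ
  exact h1.add h2

lemma vv_cd (h : Adm m) {ν S κ c σ : ℝ} (hS : 0 < S) (hσ : 0 < σ) :
    ContDiffAt ℝ 2 (vv ν m S κ c) σ := by
  refine c2_of (f2 := vv₂ ν m S κ c) isOpen_Ioi (fun x hx => vv_hd h hS hx)
    (fun x hx => vv_hd2 h hS hx) ?_ (show σ ∈ Ioi 0 from hσ)
  have a1 : ContinuousOn (fun σ => -((1 - m σ) / σ)) (Ioi 0) :=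
    ((continuousOn_const.sub h.cont).div continuousOn_id fun r (hr : 0 < r) => hr.ne').neg
  have a2 := ss_cont h.cont
  have a3 : ContinuousOn (gg m S) (Ioi 0) :=
    fun r hr => (gg_hd h.cont hS hr).continuousAt.continuousWithinAt
  have a4 := ee_cont h.cont
  unfold vv₂
  exact ((a1.mul a2).div_const _).add (continuousOn_const.mul
    (((((a1.mul a2).mul a3).add (a2.mul a4.neg)).div_const _).div_const _))

/-- The differential equation. -/
lemma vv_eq (h : Adm m) {ν S κ c σ : ℝ} (hν : 0 < ν) (hσ : 0 < σ) :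
    4 * ν * (σ * vv₂ ν m S κ c σ + (1 - m σ) * vv₁ ν m S κ c σ) = -κ / c := by
  have h1 := ss_ee (m := m) hσ
  have hs : σ * (ss m σ * ee m σ) = 1 := by rw [h1]; field_simp
  unfold vv₂ vv₁
  have e : 4 * ν * (σ * (-((1 - m σ) / σ) * ss m σ / psi m S + κ * ((-((1 - m σ) / σ) * ss m σ
      * gg m S σ + ss m σ * -ee m σ) / (4 * ν) / c)) + (1 - m σ) * (ss m σ / psi m S
      + κ * (ss m σ * gg m S σ / (4 * ν) / c)))
      = -κ / c * (σ * (ss m σ * ee m σ)) := by
    field_simp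
    ring
  rw [e, hs, mul_one]

lemma vv₁_nonneg (h : Adm m) {ν S κ c σ : ℝ} (hν : 0 < ν) (hκ : 0 ≤ κ) (hc : 0 < c) (hS : 0 < S)
    (hσ : 0 < σ) (hσS : σ ≤ S) : 0 ≤ vv₁ ν m S κ c σ := by
  have h1 := ss_pos (m := m) hσ
  have h2 := gg_nonneg (m := m) hσS
  have h3 := psi_pos h hS
  unfold vv₁
  positivity

/-! ### Simpler assumptions -/

/-- near `0` the function `ee m` is at most `σ ^ (-1/2)` -/
lemma ee_le (h : Adm0 m) {σ : ℝ} (hσ : σ ∈ Ioc (0 : ℝ) 1) : ee m σ ≤ σ ^ (-(1 / 2) : ℝ) := by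
  have h1 : (∫ r in σ..1, m r / r) ≤ ∫ r in σ..1, 1 / 2 * (1 / r) := by
    apply intervalIntegral.integral_mono_on hσ.2 (int_div h.cont hσ.1 one_pos)
    · apply ContinuousOn.intervalIntegrable
      apply ContinuousOn.mul continuousOn_const
      exact continuousOn_const.div continuousOn_id fun r hr => (uIcc_pos hσ.1 one_pos hr).ne'
    · intro r hr
      have hr0 : 0 < r := hσ.1.trans_le hr.1
      have h2 := h.le r ⟨hr0, hr.2⟩
      have : 0 < 1 / r := by positivity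
      rw [div_eq_mul_one_div (m r) r]
      exact mul_le_mul_of_nonneg_right h2 this.le
  rw [intervalIntegral.integral_const_mul, integral_one_div_of_pos hσ.1 one_pos] at h1
  unfold ee
  rw [Real.rpow_def_of_pos hσ.1]
  apply Real.exp_le_exp.2
  rw [one_div σ, Real.log_inv] at h1
  linarith

lemma ss_ge (h : Adm0 m) {σ : ℝ} (hσ : σ ∈ Ioc (0 : ℝ) 1) : σ ^ (-(1 / 2) : ℝ) ≤ ss m σ := by
  unfold ss
  have he := ee_pos (m := m) σ
  rw [le_div_iff₀ (mul_pos hσ.1 he)]
  calc σ ^ (-(1 / 2) : ℝ) * (σ * ee m σ) ≤ σ ^ (-(1 / 2) : ℝ) * (σ * σ ^ (-(1 / 2) : ℝ)) := by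
        have h1 : 0 < σ ^ (-(1 / 2) : ℝ) := Real.rpow_pos_of_pos hσ.1 _
        have := ee_le h hσ
        have h2 := hσ.1
        gcongr
    _ = 1 := by
        have e : σ * σ ^ (-(1 / 2) : ℝ) = σ ^ (1 / 2 : ℝ) := by
          conv_lhs => lhs; rw [← Real.rpow_one σ]
          rw [← Real.rpow_add hσ.1]
          norm_num
        rw [e, ← Real.rpow_add hσ.1]
        norm_num

lemma ee_int (h : Adm0 m) : IntervalIntegrable (ee m) volume 0 1 := by
  rw [intervalIntegrable_iff_integrableOn_Ioc_of_le zero_le_one]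
  have h1 : IntervalIntegrable (fun σ : ℝ => σ ^ (-(1 / 2) : ℝ)) volume 0 1 :=
    intervalIntegral.intervalIntegrable_rpow' (by norm_num)
  rw [intervalIntegrable_iff_integrableOn_Ioc_of_le zero_le_one] at h1
  refine Integrable.mono' h1 ?_ ?_
  · exact ((ee_cont h.cont).mono fun r hr => hr.1).aestronglyMeasurable measurableSet_Ioc
  · rw [ae_restrict_iff' measurableSet_Ioc]
    refine Eventually.of_forall fun σ hσ => ?_
    rw [Real.norm_of_nonneg (ee_pos σ).le]
    exact ee_le h hσ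


lemma Adm0.adm (h : Adm0 m) : Adm m where
  cont := h.cont
  int := by
    have h0 := h.int.const_mul (∫ r in (0 : ℝ)..1, ee m r)
    rw [intervalIntegrable_iff_integrableOn_Ioc_of_le zero_le_one] at h0 ⊢
    refine Integrable.mono' h0 ?_ ?_
    · exact ((sg_cont h.cont one_pos).mono fun r hr => hr.1).aestronglyMeasurable
        measurableSet_Ioc
    · rw [ae_restrict_iff' measurableSet_Ioc]
      refine Eventually.of_forall fun r hr => ?_
      have h1 := ss_pos (m := m) hr.1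
      have h2 := gg_nonneg (m := m) hr.2
      have h3 : gg m 1 r ≤ ∫ r in (0 : ℝ)..1, ee m r := by
        have i1 : IntervalIntegrable (ee m) volume 0 r := by
          refine (ee_int h).mono_set ?_
          rw [uIcc_of_le hr.1.le, uIcc_of_le zero_le_one]
          exact Icc_subset_Icc_right hr.2
        have := intervalIntegral.integral_add_adjacent_intervals i1 (ee_int' h.cont hr.1 one_pos)
        have h4 : 0 ≤ ∫ r in (0 : ℝ)..r, ee m r :=
          intervalIntegral.integral_nonneg hr.1.le fun r _ => (ee_pos r).le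
        unfold gg
        linarith
      rw [Real.norm_of_nonneg (mul_nonneg h1.le h2), mul_comm]
      exact mul_le_mul_of_nonneg_right h3 h1.le

/-- `psi m σ ≥ 2 √σ` -/
lemma psi_ge (h : Adm0 m) {σ : ℝ} (hσ : σ ∈ Icc (0 : ℝ) 1) : 2 * √σ ≤ psi m σ := by
  have h1 : (∫ r in (0 : ℝ)..σ, r ^ (-(1 / 2) : ℝ)) ≤ psi m σ := by
    unfold psi
    apply intervalIntegral.integral_mono_on_of_le_Ioo hσ.1
      (intervalIntegral.intervalIntegrable_rpow' (by norm_num))
      (int_ext (ss_cont h.cont) h.int le_rfl hσ.1)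
    intro r hr
    exact ss_ge h ⟨hr.1, hr.2.le.trans hσ.2⟩
  rw [integral_rpow (Or.inl (by norm_num))] at h1
  have e : (-(1 / 2) : ℝ) + 1 = 1 / 2 := by norm_num
  rw [e, Real.zero_rpow (by norm_num), ← Real.sqrt_eq_rpow] at h1
  linarith

end Pool.Agent.V1178.AX
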